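import Pool.Agent.Helper61.PV.All
import Pool.Agent.Helper61.PV.Tr

/-!
# Almost all polynomials of degree `d` and height `H` with `d log H ≤ H^(1/3)` take a prime value early
-/

set_option autoImplicit false

namespace Pool.Agent.Results.MP_d466de_nt.AlmostAllPolynomials

open Polynomial

/-- the integer polynomials of degree `d` with positive leading coefficient and all coefficients in
`[-H, H]` (a finite set) -/
def Family (d H : ℕ) : Set ℤ[X] :=
  {f | f.natDegree = d ∧ 0 < f.leadingCoeff ∧ ∀ k, |f.coeff k| ≤ (H : ℤ)}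

/-- condition `(*)`: no integer `n > 1` divides all the values -/
def NoFixedDivisor (f : ℤ[X]) : Prop := ∀ n : ℕ, 1 < n → ∃ k : ℤ, ¬ (n : ℤ) ∣ f.eval k

/-- the length of `f`: the sum of the numbers of binary digits of the coefficients `a_0, …, a_d`
(`0` counts `1`) -/
def length (f : ℤ[X]) : ℕ := ∑ k ∈ Finset.range (f.natDegree + 1), max 1 (Nat.size (f.coeff k).natAbs)

/-- `m` is the least positive integer for which `f(m)` is a (positive) prime -/
def IsLeastPrimePoint (f : ℤ[X]) (m : ℕ) : Prop :=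
  IsLeast {m : ℕ | 1 ≤ m ∧ ∃ p : ℕ, p.Prime ∧ f.eval (m : ℤ) = p} m

/-- the typical size of the logarithm of the values: `log H + d log (d + log H)` -/
noncomputable def S (d H : ℕ) : ℝ := Real.log H + d * Real.log (d + Real.log H)

theorem noFixedDivisor_iff {d : ℕ} (c : Fin (d + 1) → ℤ) :
    Pool.Agent.Helper61.PV.NFD c ↔ NoFixedDivisor (Pool.Agent.Helper61.PV.pol c) := by
  unfold Pool.Agent.Helper61.PV.NFD NoFixedDivisor
  simp only [Pool.Agent.Helper61.PV.eval_pol]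

/-- For `H` large at least half of the polynomials of the family satisfy `(*)`, whatever `d ≥ 1` is. -/
theorem half_satisfy : ∃ H₀ : ℕ, ∀ H d : ℕ, H₀ ≤ H → 1 ≤ d →
    (Nat.card {f : ℤ[X] // f ∈ Family d H} : ℝ) ≤
      2 * Nat.card {f : ℤ[X] // f ∈ Family d H ∧ NoFixedDivisor f} := by
  obtain ⟨H₂, h2⟩ := Pool.Agent.Helper61.PV.tSta
  refine ⟨H₂, fun H d hH hd => ?_⟩
  have k1 := Pool.Agent.Helper61.PV.card_fam d H NoFixedDivisor
    (fun c => Pool.Agent.Helper61.PV.NFD c) (fun c _ => noFixedDivisor_iff c)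
  have k0 := Pool.Agent.Helper61.PV.card_fam d H (fun _ => True)
    (fun _ => True) (fun c _ => Iff.rfl)
  have hfam : Family d H = Pool.Agent.Helper61.PV.Fam d H := rfl
  rw [hfam, k1]
  have h3 := h2 H hH d hd
  have h4 : Nat.card {f : ℤ[X] // f ∈ Pool.Agent.Helper61.PV.Fam d H} =
      (Pool.Agent.Helper61.PV.Bxx d H).card := by
    simp only [and_true] at k0
    rw [k0]
    exact Nat.subtype_card _ (fun _ => Iff.rfl)
  rw [h4]
  exact h3

/-- For every `ε > 0` there are `c, C > 0` and `H₀` such that for all `H ≥ H₀` and all `d ≥ 1` with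
`d log H ≤ H^(1/3)`: all but a proportion at most `ε` of the polynomials of degree `d`, with positive
leading coefficient and coefficients in `[-H, H]`, which satisfy `(*)`, are irreducible and have a least
prime point `m` with `c S ≤ m ≤ C S` and `m ≤ C L(f)`. -/
theorem result : ∀ ε : ℝ, 0 < ε → ∃ (c C : ℝ) (H₀ : ℕ), 0 < c ∧ 0 < C ∧
    ∀ H d : ℕ, H₀ ≤ H → 1 ≤ d → (d : ℝ) * Real.log H ≤ (H : ℝ) ^ (1 / 3 : ℝ) →
    (Nat.card {f : ℤ[X] // f ∈ Family d H ∧ NoFixedDivisor f ∧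
      ¬ (Irreducible f ∧ ∃ m : ℕ, IsLeastPrimePoint f m ∧
        c * S d H ≤ m ∧ (m : ℝ) ≤ C * S d H ∧ (m : ℝ) ≤ C * length f)} : ℝ) ≤
      ε * Nat.card {f : ℤ[X] // f ∈ Family d H ∧ NoFixedDivisor f} := by
  intro ε hε
  obtain ⟨c', C, H₁, hc, hC, h1⟩ := Pool.Agent.Helper61.PV.tFin ε hε
  refine ⟨c', C, H₁, hc, hC, ?_⟩
  intro H d hH hd hdH
  have e2 : ∀ c ∈ Pool.Agent.Helper61.PV.Bxx d H, length (Pool.Agent.Helper61.PV.pol c) =
      Pool.Agent.Helper61.PV.Len c := by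
    intro c hc
    unfold length Pool.Agent.Helper61.PV.Len
    rw [Pool.Agent.Helper61.PV.natDegree_pol c ((Pool.Agent.Helper61.PV.mem_Bxx c).1 hc).1.ne']
    rw [Finset.sum_range]
    refine Finset.sum_congr rfl fun i _ => ?_
    rw [Pool.Agent.Helper61.PV.coeff_pol, dif_pos i.2]
  have e3 : ∀ (c : Fin (d + 1) → ℤ) (m : ℕ),
      (∃ p : ℕ, p.Prime ∧ (Pool.Agent.Helper61.PV.pol c).eval (m : ℤ) = p) ↔
        (Pool.Agent.Helper61.PV.ev c m).toNat.Prime := by
    intro c m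
    rw [Pool.Agent.Helper61.PV.eval_pol]
    constructor
    · rintro ⟨p, hp, h⟩
      rw [h]; simpa using hp
    · intro h
      refine ⟨_, h, ?_⟩
      have : 0 < (Pool.Agent.Helper61.PV.ev c m).toNat := h.pos
      omega
  have k1 := Pool.Agent.Helper61.PV.card_fam d H NoFixedDivisor
    (fun c => Pool.Agent.Helper61.PV.NFD c) (fun c _ => noFixedDivisor_iff c)
  have k2 := Pool.Agent.Helper61.PV.card_fam d H (fun f => NoFixedDivisor f ∧
      ¬ (Irreducible f ∧ ∃ m : ℕ, IsLeastPrimePoint f m ∧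
        c' * S d H ≤ m ∧ (m : ℝ) ≤ C * S d H ∧ (m : ℝ) ≤ C * length f))
    (fun c => Pool.Agent.Helper61.PV.NFD c ∧
      ¬ (Irreducible (Pool.Agent.Helper61.PV.pol c) ∧ ∃ m : ℕ,
        IsLeast {m : ℕ | 1 ≤ m ∧ (Pool.Agent.Helper61.PV.ev c m).toNat.Prime} m ∧
        c' * Pool.Agent.Helper61.PV.Sz H d ≤ m ∧ (m : ℝ) ≤ C * Pool.Agent.Helper61.PV.Sz H d ∧
        (m : ℝ) ≤ C * Pool.Agent.Helper61.PV.Len c)) (by
      intro c hc
      rw [noFixedDivisor_iff c]
      unfold IsLeastPrimePoint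
      simp only [e3]
      rw [e2 c hc]
      exact Iff.rfl)
  have hfam : Family d H = Pool.Agent.Helper61.PV.Fam d H := rfl
  rw [hfam, k1, k2]
  exact h1 H hH d hd hdH

end Pool.Agent.Results.MP_d466de_nt.AlmostAllPolynomials
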