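import Pool.Agent.Helper9.UP.All

/-!
# Every irreducible polynomial has early almost prime values, uniformly in the polynomial
-/

set_option autoImplicit false

namespace Pool.Agent.Results.MP_d466de_nt.AlmostPrimeUniform

open Polynomial

/-- condition `(*)`: no integer `n > 1` divides all the values -/
def NoFixedDivisor (f : ℤ[X]) : Prop := ∀ n : ℕ, 1 < n → ∃ k : ℤ, ¬ (n : ℤ) ∣ f.eval k

/-- the length of `f`: the sum of the numbers of binary digits of the coefficients `a_0, …, a_d`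
(`0` counts `1`) -/
def length (f : ℤ[X]) : ℕ := ∑ k ∈ Finset.range (f.natDegree + 1), max 1 (Nat.size (f.coeff k).natAbs)

/-- There are absolute constants `C, c > 0` such that for every irreducible `f` in `ℤ[X]` of degree `d ≥ 1` with
positive leading coefficient and `(*)` there is `X ≤ exp (C L(f) ^ 5)` such that at least `X ^ (1/2)` integers
`m` in `[1, X]` have the property: `f(m) > 1` is a product of at most `d + 1` primes, all larger than `X ^ c`. -/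
theorem result : ∃ C c : ℝ, 0 < C ∧ 0 < c ∧ ∀ f : ℤ[X], Irreducible f → 1 ≤ f.natDegree →
    0 < f.leadingCoeff → NoFixedDivisor f →
    ∃ X : ℕ, 1 ≤ X ∧ (X : ℝ) ≤ Real.exp (C * (length f : ℝ) ^ 5) ∧
      (X : ℝ) ^ (1 / 2 : ℝ) ≤ (Nat.card {m : ℕ // 1 ≤ m ∧ m ≤ X ∧ 1 < f.eval (m : ℤ) ∧
        ArithmeticFunction.cardFactors (f.eval (m : ℤ)).natAbs ≤ f.natDegree + 1 ∧
        ∀ p : ℕ, p.Prime → (p : ℤ) ∣ f.eval (m : ℤ) → (X : ℝ) ^ c < (p : ℝ)} : ℝ) := by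
  obtain ⟨C, c, hC, hc, h⟩ := Pool.Agent.Helper9.UP.pEN
  refine ⟨C, c, hC, hc, fun f hf hd hl hn => ?_⟩
  obtain ⟨X, hX1, hX2, hX3⟩ := h f hf hd hl hn
  refine ⟨X, hX1, hX2, hX3.trans ?_⟩
  have hfin : Set.Finite {m : ℕ | 1 ≤ m ∧ m ≤ X ∧ 1 < f.eval (m : ℤ) ∧
        ArithmeticFunction.cardFactors (f.eval (m : ℤ)).natAbs ≤ f.natDegree + 1 ∧
        ∀ p : ℕ, p.Prime → (p : ℤ) ∣ f.eval (m : ℤ) → (X : ℝ) ^ c < (p : ℝ)} :=
    (Set.finite_Icc 1 X).subset (fun m hm => ⟨hm.1, hm.2.1⟩)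
  have : Finite {m : ℕ // 1 ≤ m ∧ m ≤ X ∧ 1 < f.eval (m : ℤ) ∧
        ArithmeticFunction.cardFactors (f.eval (m : ℤ)).natAbs ≤ f.natDegree + 1 ∧
        ∀ p : ℕ, p.Prime → (p : ℤ) ∣ f.eval (m : ℤ) → (X : ℝ) ^ c < (p : ℝ)} := hfin
  refine Nat.cast_le.2 (Nat.card_le_card_of_injective
    (fun x => ⟨x.1, x.2.1, x.2.2.1, ?_⟩) ?_)
  · obtain ⟨m, h1, h2, h3, h4, h5⟩ := x
    have h6 : 1 < f.eval (m : ℤ) := by
      unfold Pool.Agent.Helper9.UP.val at h3
      omega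
    have h7 : (f.eval (m : ℤ)).natAbs = Pool.Agent.Helper9.UP.val f m := by
      unfold Pool.Agent.Helper9.UP.val
      omega
    refine ⟨h6, by rw [h7]; exact h4, fun p hp hpd => h5 p hp ?_⟩
    rw [← h7]
    exact Int.natCast_dvd.1 hpd
  · intro x y hxy
    exact Subtype.ext (by simpa using hxy)

end Pool.Agent.Results.MP_d466de_nt.AlmostPrimeUniform
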