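import Pool.Agent.Helper93.PL.All
import Pool.Agent.Helper93.PL.Out

/-!
# The limit law of the least prime value `p(f)` and of the number of early prime values, for polynomials of
# degree `d` and height `H`, as `d, H → ∞` with `log d = o(log H)`
-/

set_option autoImplicit false

namespace Pool.Agent.Results.MP_d466de_nt.LimitLaw

open Polynomial Filter Topology

/-- condition `(*)`: no integer `n > 1` divides all the values -/
def NoFixedDivisor (f : ℤ[X]) : Prop := ∀ n : ℕ, 1 < n → ∃ k : ℤ, ¬ (n : ℤ) ∣ f.eval k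

/-- the irreducible integer polynomials of degree `d` with positive leading coefficient and all coefficients
in `[-H, H]` which satisfy `(*)` (a finite set) -/
def Family (d H : ℕ) : Set ℤ[X] :=
  {f | f.natDegree = d ∧ 0 < f.leadingCoeff ∧ (∀ k, |f.coeff k| ≤ (H : ℤ)) ∧
    Irreducible f ∧ NoFixedDivisor f}

/-- the number of integers `m`, `1 ≤ m ≤ X`, for which `f(m)` is a (positive) prime -/
noncomputable def primeCount (f : ℤ[X]) (X : ℝ) : ℕ :=
  Nat.card {m : ℕ // 1 ≤ m ∧ (m : ℝ) ≤ X ∧ ∃ p : ℕ, p.Prime ∧ f.eval (m : ℤ) = p}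

/-- `m` is the least positive integer for which `f(m)` is a (positive) prime -/
def IsLeastPrimePoint (f : ℤ[X]) (m : ℕ) : Prop :=
  IsLeast {m : ℕ | 1 ≤ m ∧ ∃ p : ℕ, p.Prime ∧ f.eval (m : ℤ) = p} m

/-- the typical size of the logarithm of the values: `log H + d log (d + log H)` -/
noncomputable def S (d H : ℕ) : ℝ := Real.log H + d * Real.log (d + Real.log H)

/-- the primes up to `w` -/
def primesUpTo (w : ℕ) : Finset ℕ := (Finset.Icc 1 w).filter Nat.Prime

/-- the probability of `n` under the binomial distribution with parameters `p` and `1/p` -/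
noncomputable def binomialWeight (p n : ℕ) : ℝ :=
  p.choose n * (1 / (p : ℝ)) ^ n * (1 - 1 / (p : ℝ)) ^ (p - n)

/-- the Euler product `∏_{p ≤ w} (1 - n_p/p)/(1 - 1/p)` -/
noncomputable def eulerProduct {w : ℕ} (n : primesUpTo w → ℕ) : ℝ :=
  ∏ p : primesUpTo w, (1 - (n p : ℝ) / p.1) / (1 - 1 / (p.1 : ℝ))

/-- the probability of `j` under the Poisson distribution with mean `y` -/
noncomputable def poissonWeight (j : ℕ) (y : ℝ) : ℝ := Real.exp (-y) * y ^ j / j.factorial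

/-- the mixed Poisson law truncated at `w`: the expectation of `poissonWeight j (x B)`, `B = ∏_{p ≤ w} (1 - N_p/p)/(1 - 1/p)`,
where the `N_p` are independent and `N_p` has the binomial distribution with parameters `p` and `1/p` conditioned on `N_p < p` -/
noncomputable def mixedPoisson (w j : ℕ) (x : ℝ) : ℝ :=
  ∑ n ∈ Fintype.piFinset (fun p : primesUpTo w => Finset.range p.1),
    (∏ p : primesUpTo w, binomialWeight p.1 (n p) / (1 - (1 / (p.1 : ℝ)) ^ p.1)) *
      poissonWeight j (x * eulerProduct n)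

open Pool.Agent.Helper61.PV Pool.Agent.Helper93.PL

theorem noFixedDivisor_iff {d : ℕ} (c : Fin (d + 1) → ℤ) : NFD c ↔ NoFixedDivisor (pol c) := by
  unfold NFD NoFixedDivisor
  simp only [eval_pol]

theorem prime_iff {d : ℕ} (c : Fin (d + 1) → ℤ) (m : ℕ) :
    (∃ p : ℕ, p.Prime ∧ (pol c).eval (m : ℤ) = p) ↔ (ev c m).toNat.Prime := by
  rw [eval_pol]
  constructor
  · rintro ⟨p, hp, h⟩
    rw [h]; simpa using hp
  · intro h
    refine ⟨_, h, ?_⟩
    have : 0 < (ev c m).toNat := h.pos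
    omega

theorem primeCount_pol {d : ℕ} (c : Fin (d + 1) → ℤ) (X : ℝ) : primeCount (pol c) X = nP c 0 X := by
  unfold primeCount nP
  simp only [prime_iff]
  apply Nat.subtype_card
  intro m
  rw [Finset.mem_filter, Finset.mem_range]
  constructor
  · rintro ⟨h1, h2, h3⟩
    have h0 : 1 ≤ m := by exact_mod_cast h2
    refine ⟨h0, ?_, h3⟩
    rcases le_or_gt 0 X with hX | hX
    · exact (Nat.le_floor_iff hX).1 (Nat.lt_succ_iff.1 h1)
    · rw [Nat.floor_of_nonpos hX.le] at h1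
      omega
  · rintro ⟨h1, h2, h3⟩
    refine ⟨?_, by exact_mod_cast h1, h3⟩
    exact Nat.lt_succ_of_le (Nat.le_floor h2)

theorem card_all (d H : ℕ) : Nat.card (Family d H) =
    Nat.card {v : Fin (d + 1) → ℤ // v ∈ Bxx d H ∧ (Irreducible (pol v) ∧ NFD v)} := by
  rw [← card_fam d H (fun f => Irreducible f ∧ NoFixedDivisor f) (fun v => Irreducible (pol v) ∧ NFD v)
    (fun c _ => by rw [noFixedDivisor_iff c])]
  apply Nat.card_congr
  refine Equiv.subtypeEquivRight ?_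
  intro f
  unfold Fam Family
  simp only [Set.mem_setOf_eq, and_assoc]

theorem card_law (d H j : ℕ) (X : ℝ) : Nat.card {f : ℤ[X] // f ∈ Family d H ∧ primeCount f X = j} =
    Nat.card {v : Fin (d + 1) → ℤ // v ∈ Bxx d H ∧ (Irreducible (pol v) ∧ NFD v) ∧ nP v 0 X = j} := by
  rw [← card_fam d H (fun f => (Irreducible f ∧ NoFixedDivisor f) ∧ primeCount f X = j)
    (fun v => (Irreducible (pol v) ∧ NFD v) ∧ nP v 0 X = j)
    (fun c _ => by rw [noFixedDivisor_iff c, primeCount_pol])]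
  apply Nat.card_congr
  refine Equiv.subtypeEquivRight ?_
  intro f
  unfold Fam Family
  simp only [Set.mem_setOf_eq, and_assoc]

theorem least_iff {d : ℕ} (c : Fin (d + 1) → ℤ) (X : ℝ) :
    (∃ m : ℕ, IsLeastPrimePoint (pol c) m ∧ (m : ℝ) ≤ X) ↔ ¬ nP c 0 X = 0 := by
  classical
  constructor
  · rintro ⟨m, ⟨⟨h1, h2⟩, -⟩, hX⟩ h
    unfold nP at h
    rw [Finset.card_eq_zero, Finset.filter_eq_empty_iff] at h
    refine h (x := m) ?_ ⟨by exact_mod_cast h1, (prime_iff c m).1 h2⟩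
    rw [Finset.mem_range]
    exact Nat.lt_succ_of_le (Nat.le_floor hX)
  · intro h
    unfold nP at h
    rw [Finset.card_eq_zero, ← Ne.eq_def, ← Finset.nonempty_iff_ne_empty] at h
    obtain ⟨m, hm⟩ := h
    rw [Finset.mem_filter, Finset.mem_range] at hm
    obtain ⟨h1, h2, h3⟩ := hm
    have h0 : 1 ≤ m := by exact_mod_cast h2
    have hmX : (m : ℝ) ≤ X := by
      rcases le_or_gt 0 X with hX | hX
      · exact (Nat.le_floor_iff hX).1 (Nat.lt_succ_iff.1 h1)
      · rw [Nat.floor_of_nonpos hX.le] at h1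
        omega
    have hex : ∃ k : ℕ, 1 ≤ k ∧ ∃ p : ℕ, p.Prime ∧ (pol c).eval (k : ℤ) = p := ⟨m, h0, (prime_iff c m).2 h3⟩
    refine ⟨Nat.find hex, ⟨Nat.find_spec hex, fun k hk => Nat.find_min' hex hk⟩, ?_⟩
    exact le_trans (by exact_mod_cast Nat.find_min' hex ⟨h0, (prime_iff c m).2 h3⟩) hmX

theorem card_least (d H : ℕ) (X : ℝ) :
    Nat.card {f : ℤ[X] // f ∈ Family d H ∧ ∃ m : ℕ, IsLeastPrimePoint f m ∧ (m : ℝ) ≤ X} =
    Nat.card {v : Fin (d + 1) → ℤ // v ∈ Bxx d H ∧ (Irreducible (pol v) ∧ NFD v) ∧ ¬ nP v 0 X = 0} := by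
  rw [← card_fam d H (fun f => (Irreducible f ∧ NoFixedDivisor f) ∧
      ∃ m : ℕ, IsLeastPrimePoint f m ∧ (m : ℝ) ≤ X)
    (fun v => (Irreducible (pol v) ∧ NFD v) ∧ ¬ nP v 0 X = 0)
    (fun c _ => by rw [noFixedDivisor_iff c, least_iff])]
  apply Nat.card_congr
  refine Equiv.subtypeEquivRight ?_
  intro f
  unfold Fam Family
  simp only [Set.mem_setOf_eq, and_assoc]

theorem card_add (d H : ℕ) (X : ℝ) :
    (Nat.card {f : ℤ[X] // f ∈ Family d H ∧ ∃ m : ℕ, IsLeastPrimePoint f m ∧ (m : ℝ) ≤ X} : ℝ) +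
      Nat.card {f : ℤ[X] // f ∈ Family d H ∧ primeCount f X = 0} = Nat.card (Family d H) := by
  classical
  rw [card_least, card_law, card_all]
  simp only [card_eq (H := H)]
  norm_cast
  rw [← Finset.card_union_of_disjoint]
  · congr 1
    ext v
    rw [Finset.mem_union, Finset.mem_filter, Finset.mem_filter, Finset.mem_filter]
    by_cases h0 : nP v 0 X = 0 <;> tauto
  · rw [Finset.disjoint_left]
    intro v hv hv'
    rw [Finset.mem_filter] at hv hv'
    exact hv.2.2 hv'.2.2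

/-- There is a family of limit laws `L · x` (`x > 0`; the mixed Poisson laws `mixedPoisson w · x` converge to it as `w → ∞`),
`L · x` is a probability distribution on `{0, 1, 2, …}`, `x ↦ 1 - L 0 x` is the distribution function of a probability law on
`(0, ∞)` (nondecreasing, Lipschitz, limits `0` and `1`) with `0 < L 0 x < 1`, such that for every `ε > 0` there are `c > 0`, `D₀`, `H₀` with the
following property: for all `d ≥ D₀`, `H ≥ H₀` with `d ≤ H^c`, the proportion of the `f` in `Family d H` with exactly `j` prime values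
`f(m)`, `1 ≤ m ≤ x S`, is within `ε` of `L j x`, and the proportion of the `f` with `p(f) ≤ x S` is within `ε` of `1 - L 0 x`, uniformly in `x > 0`. -/
theorem result : ∃ L : ℕ → ℝ → ℝ,
    (∀ (j : ℕ) (x : ℝ), 0 < x → Tendsto (fun w => mixedPoisson w j x) atTop (𝓝 (L j x))) ∧
    (∀ x : ℝ, 0 < x → 0 < L 0 x ∧ L 0 x < 1 ∧ (∀ j, 0 ≤ L j x) ∧ HasSum (fun j => L j x) 1) ∧
    (∀ x y : ℝ, 0 < x → x ≤ y → L 0 y ≤ L 0 x) ∧
    (∀ x y : ℝ, 0 < x → 0 < y → |L 0 x - L 0 y| ≤ 2 * |x - y|) ∧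
    Tendsto (L 0) (𝓝[>] 0) (𝓝 1) ∧ Tendsto (L 0) atTop (𝓝 0) ∧
    (∀ (j : ℕ) (x ε : ℝ), 0 < x → 0 < ε → ∃ (c : ℝ) (D₀ H₀ : ℕ), 0 < c ∧
      ∀ d H : ℕ, D₀ ≤ d → H₀ ≤ H → (d : ℝ) ≤ (H : ℝ) ^ c →
      |(Nat.card {f : ℤ[X] // f ∈ Family d H ∧ primeCount f (x * S d H) = j} : ℝ) /
        Nat.card (Family d H) - L j x| ≤ ε) ∧
    (∀ ε : ℝ, 0 < ε → ∃ (c : ℝ) (D₀ H₀ : ℕ), 0 < c ∧
      ∀ d H : ℕ, D₀ ≤ d → H₀ ≤ H → (d : ℝ) ≤ (H : ℝ) ^ c → ∀ x : ℝ, 0 < x →
      |(Nat.card {f : ℤ[X] // f ∈ Family d H ∧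
          ∃ m : ℕ, IsLeastPrimePoint f m ∧ (m : ℝ) ≤ x * S d H} : ℝ) /
        Nat.card (Family d H) - (1 - L 0 x)| ≤ ε) := by
  obtain ⟨L, h1, h2, h3, h4, h5, h6, h7, h8⟩ := out tKa tKb tIrd
  have hR : ∀ (d H j : ℕ) (x : ℝ),
      (Nat.card {f : ℤ[X] // f ∈ Family d H ∧ primeCount f (x * S d H) = j} : ℝ) /
        Nat.card (Family d H) = RatI d H j x := by
    intro d H j x
    rw [card_law, card_all]
    rfl
  refine ⟨L, h1, h2, h3, h4, h5, h6, ?_, ?_⟩
  · intro j x ε hx hε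
    obtain ⟨c, D₀, H₀, hc, h⟩ := h7 j x ε hx hε
    refine ⟨c, D₀, H₀, hc, fun d H hd hH hdH => ?_⟩
    rw [hR]
    exact h d H hd hH hdH
  · intro ε hε
    obtain ⟨c, D₀, H₀, hc, h⟩ := h8 (min ε (1 / 4)) (lt_min hε (by norm_num))
    refine ⟨c, D₀, H₀, hc, fun d H hd hH hdH x hx => ?_⟩
    have hpos : (Nat.card (Family d H) : ℝ) ≠ 0 := by
      intro h0
      have hev : ∀ᶠ x in 𝓝[>] (0 : ℝ), 1 / 2 < L 0 x := h5 (lt_mem_nhds (by norm_num))
      obtain ⟨y, hy1, hy2⟩ := (hev.and self_mem_nhdsWithin).exists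
      have hy := (h d H hd hH hdH y hy2).trans (min_le_right _ _)
      have hz : RatI d H 0 y = 0 := by rw [← hR, h0, div_zero]
      rw [hz, zero_sub, abs_neg, abs_of_pos (by linarith)] at hy
      linarith
    have hx' := (h d H hd hH hdH x hx).trans (min_le_left _ _)
    rw [← hR] at hx'
    have hadd := card_add d H (x * S d H)
    have e1 : (Nat.card {f : ℤ[X] // f ∈ Family d H ∧
          ∃ m : ℕ, IsLeastPrimePoint f m ∧ (m : ℝ) ≤ x * S d H} : ℝ) / Nat.card (Family d H) - (1 - L 0 x) =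
        -((Nat.card {f : ℤ[X] // f ∈ Family d H ∧ primeCount f (x * S d H) = 0} : ℝ) /
          Nat.card (Family d H) - L 0 x) := by
      have : (Nat.card {f : ℤ[X] // f ∈ Family d H ∧
          ∃ m : ℕ, IsLeastPrimePoint f m ∧ (m : ℝ) ≤ x * S d H} : ℝ) = Nat.card (Family d H) -
          Nat.card {f : ℤ[X] // f ∈ Family d H ∧ primeCount f (x * S d H) = 0} := by linarith
      rw [this, sub_div, div_self hpos]
      ring
    rw [e1, abs_neg]
    exact hx'

end Pool.Agent.Results.MP_d466de_nt.LimitLaw
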