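import Mathlib
import Pool.Agent.Helper14.TwoThirdsAux

open Polynomial

namespace Pool.Agent.Results.MP_d466de_nt.TwoThirds

/-- There is c > 0 such that for every d ≥ 1 some irreducible f of degree d with positive leading
coefficient and no fixed divisor has |f(m)| composite for all |m| < exp(c L^(2/3) / log L),
L being the length of f. -/
theorem result : ∃ c : ℝ, 0 < c ∧ ∀ d : ℕ, 1 ≤ d →
    ∃ f : ℤ[X], f.natDegree = d ∧ Irreducible f ∧ 0 < f.leadingCoeff ∧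
      (∀ n : ℕ, 1 < n → ¬ ∀ x : ℤ, (n : ℤ) ∣ f.eval x) ∧
      ∀ m : ℤ,
        |(m : ℝ)| < Real.exp (c *
          ((∑ k ∈ Finset.range (f.natDegree + 1), max 1 (Nat.size (f.coeff k).natAbs) : ℕ) : ℝ)
            ^ (2 / 3 : ℝ) /
          Real.log ((∑ k ∈ Finset.range (f.natDegree + 1),
            max 1 (Nat.size (f.coeff k).natAbs) : ℕ) : ℝ)) →
        1 < (f.eval m).natAbs ∧ ¬ (f.eval m).natAbs.Prime :=
  Pool.Agent.Helper14.TwoThirdsAux.main

/-- Consequence: the negated form of the question holds for every exponent a < 2/3. -/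
theorem exponent_lower_bound (a : ℝ) (ha : a < 2 / 3) (ℓ₀ : ℕ) (C : ℝ) :
    ∃ f : ℤ[X], Irreducible f ∧ 0 < f.leadingCoeff ∧
      (∀ n : ℕ, 1 < n → ¬ ∀ x : ℤ, (n : ℤ) ∣ f.eval x) ∧
      ℓ₀ ≤ ∑ k ∈ Finset.range (f.natDegree + 1), max 1 (Nat.size (f.coeff k).natAbs) ∧
      ∀ m : ℕ, 1 ≤ m →
        (m : ℝ) ≤ C * Real.exp (((∑ k ∈ Finset.range (f.natDegree + 1),
          max 1 (Nat.size (f.coeff k).natAbs) : ℕ) : ℝ) ^ a) →
        ¬ Prime (f.eval (m : ℤ)) := by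
  obtain ⟨c, hc, hmain⟩ := result
  obtain ⟨x0, hx0⟩ := Filter.eventually_atTop.1 (Pool.Agent.Helper14.TwoThirdsAux.eventually_growth a ha C c hc)
  set d : ℕ := max (max ℓ₀ ⌈x0⌉₊) 1 with hd
  obtain ⟨f, hf1, hf2, hf3, hf4, hf5⟩ := hmain d (le_max_right _ _)
  set Ln : ℕ := ∑ k ∈ Finset.range (f.natDegree + 1), max 1 (Nat.size (f.coeff k).natAbs) with hLn
  have hLd : d ≤ Ln := by
    have h1 : ∑ k ∈ Finset.range (f.natDegree + 1), 1 ≤ Ln :=
      Finset.sum_le_sum (fun k _ => le_max_left _ _)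
    rw [Finset.sum_const, Finset.card_range, smul_eq_mul, mul_one] at h1
    omega
  refine ⟨f, hf2, hf3, hf4, ?_, ?_⟩
  · exact le_trans (le_trans (le_max_left _ _) (le_max_left _ _)) hLd
  · intro m _ hm hprime
    have hxL : x0 ≤ (Ln : ℝ) := by
      refine le_trans (Nat.le_ceil x0) ?_
      exact_mod_cast le_trans (le_trans (le_max_right _ _) (le_max_left _ _)) hLd
    have h2 := hf5 (m : ℤ) (by
      have h3 : |(((m : ℕ) : ℤ) : ℝ)| = (m : ℝ) := by simp
      rw [h3]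
      exact lt_of_le_of_lt hm (hx0 _ hxL))
    exact h2.2 (Int.prime_iff_natAbs_prime.1 hprime)

end Pool.Agent.Results.MP_d466de_nt.TwoThirds
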